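import Pool.Agent.Q239.SP.V10A

set_option autoImplicit false

/-!
# Project SP, job V10, part 2: semiconjugate maps
-/

namespace Pool.Agent.Q239.SP.V10

open Finset Polynomial
open Pool.Agent.Q41.SU Pool.Agent.Q41.SP

universe u

/-! ## Levels -/

theorem tau_pow {l : ℕ} {k E : Type u} [Field k] [Field E] [Algebra k E] [Fact l.Prime] [CharP E l]
    {τ : E →ₐ[k] PowerSeries E} {D : Derivation k E E} (hτ : IsHT l τ D) (K : ℕ) (e : E) :
    (PowerSeries.X : PowerSeries E) ^ l ^ K ∣ τ (e ^ l ^ K) - PowerSeries.C (e ^ l ^ K) := by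
  have : CharP (PowerSeries E) l :=
    charP_of_injective_ringHom (PowerSeries.C_injective (R := E)) l
  have h1 : (PowerSeries.X : PowerSeries E) ∣ τ e - PowerSeries.C e := by
    rw [PowerSeries.X_dvd_iff, map_sub, hτ.const, PowerSeries.constantCoeff_C, sub_self]
  rw [map_pow, map_pow, ← sub_pow_char_pow]
  exact pow_dvd_pow_of_dvd h1 _

/-- the normalised coefficients -/
theorem norm_coeff {l : ℕ} {k E : Type u} [Field k] [Field E] [Algebra k E] [Fact l.Prime]
    [CharP E l] {τ : E →ₐ[k] PowerSeries E} {D : Derivation k E E} (hτ : IsHT l τ D)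
    (hlev : S_levP.{u}) (K : ℕ) (v w : E[X]) (hvw : IsCoprime v w) (hw : w ≠ 0)
    (h : ∀ i, (PowerSeries.X : PowerSeries E) ^ l ^ K ∣
      (v.map (τ : E →+* PowerSeries E) * w.map PowerSeries.C -
        v.map PowerSeries.C * w.map (τ : E →+* PowerSeries E)).coeff i) :
    ∃ (b : E) (v₀ w₀ : E[X]), b ≠ 0 ∧ C b * v = v₀.map (iterateFrobenius E l K) ∧
      C b * w = w₀.map (iterateFrobenius E l K) := by
  let b : E := w.leadingCoeff⁻¹
  have hb : b ≠ 0 := inv_ne_zero (leadingCoeff_ne_zero.2 hw)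
  let v₁ := C b * v
  let w₁ := C b * w
  have hw₁ : w₁.Monic := by
    change (C w.leadingCoeff⁻¹ * w).leadingCoeff = 1
    rw [leadingCoeff_mul, leadingCoeff_C, inv_mul_cancel₀ (leadingCoeff_ne_zero.2 hw)]
  let π := Ideal.Quotient.mk (Ideal.span {(PowerSeries.X : PowerSeries E) ^ l ^ K})
  let f : E →+* _ := π.comp (τ : E →+* PowerSeries E)
  let g : E →+* _ := π.comp (PowerSeries.C : E →+* PowerSeries E)
  have hker : ∀ x : PowerSeries E, (PowerSeries.X : PowerSeries E) ^ l ^ K ∣ x ↔ π x = 0 := by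
    intro x
    rw [Ideal.Quotient.eq_zero_iff_mem, Ideal.mem_span_singleton]
  have h1 : v.map f * w.map g = v.map g * w.map f := by
    rw [← sub_eq_zero]
    have h2 : (v.map (τ : E →+* PowerSeries E) * w.map PowerSeries.C -
        v.map PowerSeries.C * w.map (τ : E →+* PowerSeries E)).map π = 0 := by
      ext i
      rw [coeff_map, coeff_zero]
      exact (hker _).1 (h i)
    rw [Polynomial.map_sub, Polynomial.map_mul, Polynomial.map_mul, Polynomial.map_map,
      Polynomial.map_map, Polynomial.map_map, Polynomial.map_map] at h2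
    exact h2
  have h2 : v₁.map f * w₁.map g = v₁.map g * w₁.map f := by
    change (C b * v).map f * (C b * w).map g = (C b * v).map g * (C b * w).map f
    rw [Polynomial.map_mul, Polynomial.map_mul, Polynomial.map_mul, Polynomial.map_mul]
    linear_combination ((C b).map f * (C b).map g) * h1
  obtain ⟨s, r, hsr⟩ : IsCoprime v₁ w₁ := by
    have hu : IsUnit (C b : E[X]) := isUnit_C.2 (IsUnit.mk0 b hb)
    exact (isCoprime_mul_unit_left hu v w).2 hvw
  have h3 : s.map g * v₁.map g + r.map g * w₁.map g = 1 := by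
    rw [← Polynomial.map_mul, ← Polynomial.map_mul, ← Polynomial.map_add, hsr, Polynomial.map_one]
  set ρ := s.map g * v₁.map f + r.map g * w₁.map f with hρ
  have h4 : ρ * w₁.map g = w₁.map f := by
    rw [hρ]
    linear_combination (s.map g) * h2 + (w₁.map f) * h3
  have h5 : ρ * v₁.map g = v₁.map f := by
    rw [hρ]
    linear_combination (-(r.map g)) * h2 + (v₁.map f) * h3
  have hmg : (w₁.map g).Monic := hw₁.map g
  have hmf : (w₁.map f).Monic := hw₁.map f
  have hρ1 : ρ = 1 := by
    nontriviality (PowerSeries E ⧸ Ideal.span {(PowerSeries.X : PowerSeries E) ^ l ^ K})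
    have h6 : ρ.Monic := by
      apply Monic.of_mul_monic_right hmg
      rw [h4]
      exact hmf
    have h7 := h6.natDegree_mul hmg
    rw [h4, hw₁.natDegree_map, hw₁.natDegree_map] at h7
    exact h6.natDegree_eq_zero.1 (by omega)
  rw [hρ1, one_mul] at h4 h5
  have hlift : ∀ p : E[X], p.map g = p.map f →
      ∃ p₀ : E[X], p = p₀.map (iterateFrobenius E l K) := by
    intro p hp
    have h6 : p ∈ lifts (iterateFrobenius E l K) := by
      rw [lifts_iff_coeff_lifts]
      intro n
      have h7 := congrArg (fun q => q.coeff n) hp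
      simp only [coeff_map] at h7
      obtain ⟨y, hy⟩ := (hlev l 0 K k E τ D hτ).1 (p.coeff n) (by
        rw [hker, map_sub, sub_eq_zero]
        change π (PowerSeries.map (iterateFrobenius E l 0) (τ (p.coeff n))) = _
        rw [pow_zero, pow_one]
        have h8 : PowerSeries.map (iterateFrobenius E l 0) (τ (p.coeff n)) = τ (p.coeff n) := by
          rw [iterateFrobenius_zero, PowerSeries.map_id]
          rfl
        rw [h8]
        exact h7.symm)
      exact ⟨y, by rw [iterateFrobenius_def, hy]⟩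
    obtain ⟨q, hq⟩ := h6
    exact ⟨q, hq.symm⟩
  obtain ⟨v₀, hv₀⟩ := hlift v₁ h5
  obtain ⟨w₀, hw₀⟩ := hlift w₁ h4
  exact ⟨b, v₀, w₀, hb, hv₀, hw₀⟩

/-! ## Cycles -/

theorem cycle_inj {L : Type*} (f : L → L) (y : ℕ → L) (hy : ∀ i, y (i + 1) = f (y i)) (ℓ : ℕ)
    (hℓ : ℓ.Prime) (h0 : y ℓ = y 0) (h1 : y 1 ≠ y 0) : ∀ i < ℓ, ∀ j < ℓ, y i = y j → i = j := by
  have h2 : ∀ n, y n = f^[n] (y 0) := by
    intro n
    induction n with
    | zero => rfl
    | succ n ih => rw [hy, ih, Function.iterate_succ_apply']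
  have h3 : Function.IsPeriodicPt f ℓ (y 0) := by
    change f^[ℓ] (y 0) = y 0
    rw [← h2, h0]
  have h4 : Function.minimalPeriod f (y 0) = ℓ := by
    rcases (Nat.dvd_prime hℓ).1 h3.minimalPeriod_dvd with h5 | h5
    · exfalso
      rw [Function.minimalPeriod_eq_one_iff_isFixedPt] at h5
      exact h1 (by rw [hy 0]; exact h5)
    · exact h5
  intro i hi j hj hij
  have h5 := Function.iterate_injOn_Iio_minimalPeriod (f := f) (x := y 0)
  rw [h4] at h5
  refine h5 hi hj ?_
  change f^[i] (y 0) = f^[j] (y 0)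
  rw [← h2, ← h2, hij]

theorem primes_exist (a b n : ℕ) : ∃ S : Finset ℕ, S.card = n ∧ ∀ p ∈ S, p.Prime ∧ a ≤ p ∧ b < p := by
  have h1 : {p : ℕ | p.Prime ∧ a ≤ p ∧ b < p}.Infinite := by
    rw [← Nat.frequently_atTop_iff_infinite, Filter.frequently_atTop]
    intro m
    obtain ⟨p, hp1, hp2⟩ := Nat.exists_infinite_primes (m + a + b + 1)
    exact ⟨p, by omega, hp2, by omega, by omega⟩
  obtain ⟨S, hS1, hS2⟩ := h1.exists_subset_card_eq n
  exact ⟨S, hS2, fun p hp => hS1 hp⟩

/-! ## The relation at a point of the cycle -/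

theorem point {l : ℕ} {k E L : Type u} [Field k] [Field E] [Algebra k E] [Fact l.Prime]
    [CharP E l] [Field L] [Algebra E L] [IsAlgClosed L] {τ : E →ₐ[k] PowerSeries E}
    {D : Derivation k E E} (hτ : IsHT l τ D) (K e N M : ℕ) (Pn Qn Pn' Qn' v w : E[X])
    (hn : RM N (Pn'.map (iterateFrobenius E l K)) (Qn'.map (iterateFrobenius E l K)))
    (hvw : RM e v w) (hN : 2 ≤ N) (hM0 : 0 < M) (hM : (N + 1) * M ≤ l ^ K)
    (H : hcm e v (Pn.map (iterateFrobenius E l K)) (Qn.map (iterateFrobenius E l K)) *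
        hcm N (Qn'.map (iterateFrobenius E l K)) v w =
      hcm e w (Pn.map (iterateFrobenius E l K)) (Qn.map (iterateFrobenius E l K)) *
        hcm N (Pn'.map (iterateFrobenius E l K)) v w) (y : L)
    (hQ : eval₂ (algebraMap E L) y (Qn.map (iterateFrobenius E l K)) ≠ 0)
    (hP : eval₂ (algebraMap E L) y (Pn.map (iterateFrobenius E l K)) =
      y * eval₂ (algebraMap E L) y (Qn.map (iterateFrobenius E l K)))
    (hw : eval₂ (algebraMap E L) y w ≠ 0) :
    (PowerSeries.X : PowerSeries L) ^ M ∣ eval₂ (PowerSeries.map (algebraMap E L)) (PowerSeries.C y)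
      (v.map (τ : E →+* PowerSeries E) * w.map PowerSeries.C -
        v.map PowerSeries.C * w.map (τ : E →+* PowerSeries E)) := by
  let a := algebraMap E L
  let Fr := iterateFrobenius E l K
  let σ : E →+* PowerSeries L := (PowerSeries.map a).comp (τ : E →+* PowerSeries E)
  let ι : E →+* PowerSeries L := (PowerSeries.C : L →+* PowerSeries L).comp a
  let π := Ideal.Quotient.mk (Ideal.span {(PowerSeries.X : PowerSeries L) ^ l ^ K})
  have hker : ∀ x : PowerSeries L, (PowerSeries.X : PowerSeries L) ^ l ^ K ∣ x ↔ π x = 0 := by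
    intro x
    rw [Ideal.Quotient.eq_zero_iff_mem, Ideal.mem_span_singleton]
  have hι : (PowerSeries.map a).comp (PowerSeries.C : E →+* PowerSeries E) = ι := by
    ext x : 1
    exact PowerSeries.map_C _ _
  have hFr : (π.comp σ).comp Fr = (π.comp ι).comp Fr := by
    ext x : 1
    change π (PowerSeries.map a (τ (Fr x))) = π (PowerSeries.C (a (Fr x)))
    rw [← sub_eq_zero, ← map_sub, ← hker]
    have h1 := tau_pow hτ K x
    have h2 := map_dvd (PowerSeries.map a) h1
    rw [map_pow, PowerSeries.map_X, map_sub, PowerSeries.map_C] at h2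
    change _ ∣ PowerSeries.map a (τ (iterateFrobenius E l K x)) -
      PowerSeries.C (a (iterateFrobenius E l K x))
    rw [iterateFrobenius_def]
    exact h2
  have hev : ∀ (g : E[X]) z, eval₂ (π.comp σ) z (g.map Fr) = eval₂ (π.comp ι) z (g.map Fr) := by
    intro g z
    rw [eval₂_map, eval₂_map, hFr]
  have hevc : ∀ (g : E[X]), eval₂ (π.comp ι) (π (PowerSeries.C y)) g =
      π (PowerSeries.C (eval₂ a y g)) := by
    intro g
    change eval₂ (π.comp ((PowerSeries.C : L →+* PowerSeries L).comp a)) (π (PowerSeries.C y)) g = _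
    rw [← hom_eval₂, ← hom_eval₂]
  have hcc : ∀ g : E[X], PowerSeries.constantCoeff (eval₂ σ (PowerSeries.C y) g) = eval₂ a y g := by
    intro g
    rw [hom_eval₂, PowerSeries.constantCoeff_C]
    congr 1
    ext x : 1
    change PowerSeries.constantCoeff (PowerSeries.map a (τ x)) = a x
    rw [← PowerSeries.coeff_zero_eq_constantCoeff_apply, PowerSeries.coeff_map,
      PowerSeries.coeff_zero_eq_constantCoeff_apply, hτ.const]
  set V := eval₂ σ (PowerSeries.C y) v with hV
  set W := eval₂ σ (PowerSeries.C y) w with hW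
  have hWc : PowerSeries.constantCoeff W ≠ 0 := by
    rw [hW, hcc]
    exact hw
  have hWi := PowerSeries.mul_inv_cancel W hWc
  set t := V * W⁻¹ with ht
  have htW : t * W = V := by
    rw [ht, mul_assoc, mul_comm W⁻¹, hWi, mul_one]
  have hPd' : (Pn'.map Fr).natDegree ≤ N := by rw [← hn.deg]; exact le_max_left _ _
  have hQd' : (Qn'.map Fr).natDegree ≤ N := by rw [← hn.deg]; exact le_max_right _ _
  have hvd : v.natDegree ≤ e := by rw [← hvw.deg]; exact le_max_left _ _
  have hwd : w.natDegree ≤ e := by rw [← hvw.deg]; exact le_max_right _ _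
  have hVe : eval₂ (π.comp σ) (π (PowerSeries.C y)) v = π V := by
    rw [← hom_eval₂]
  have hWe : eval₂ (π.comp σ) (π (PowerSeries.C y)) w = π W := by
    rw [← hom_eval₂]
  have h1 := ringB (π.comp σ) (π (PowerSeries.C y)) (π t) (Pn := Pn.map Fr) (Qn := Qn.map Fr)
    (Pn' := Pn'.map Fr) (Qn' := Qn'.map Fr) (v := v) (w := w) (e := e) (N := N)
    (by
      rw [hev, hev, hevc, hevc, ← map_mul, ← map_mul]
      congr 2)
    (by rw [hVe, hWe, ← map_mul, htW])
    (by
      rw [hev, hevc]
      exact ((IsUnit.mk0 _ hQ).map PowerSeries.C).map π)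
    (by
      rw [hWe]
      exact (IsUnit.of_mul_eq_one _ hWi).map π)
    hvd hwd hPd' hQd' H
  rw [hev, hev] at h1
  have h2 : (PowerSeries.X : PowerSeries L) ^ l ^ K ∣
      eval₂ PowerSeries.C t ((X * (Qn'.map Fr) - Pn'.map Fr).map a) := by
    rw [hker, eval₂_map, hom_eval₂]
    change eval₂ (π.comp ι) (π t) (X * (Qn'.map Fr) - Pn'.map Fr) = 0
    rw [eval₂_sub, eval₂_mul, eval₂_X, h1, sub_self]
  have hψ : X * (Qn'.map Fr) - Pn'.map Fr ≠ 0 := by
    intro h3
    have h4 : (Pn'.map Fr) * 1 = X * (Qn'.map Fr) := by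
      rw [mul_one, sub_eq_zero.1 h3]
    have h5 : RM 1 (X : E[X]) 1 := by
      refine ⟨isCoprime_one_right, ?_⟩
      rw [natDegree_X, natDegree_one]
      rfl
    have h6 := Q52.SP.deg_eq hn h5 h4
    omega
  have hψ' : (X * (Qn'.map Fr) - Pn'.map Fr).map a ≠ 0 :=
    (Polynomial.map_ne_zero_iff a.injective).2 hψ
  have hψd : ((X * (Qn'.map Fr) - Pn'.map Fr).map a).natDegree ≤ N + 1 := by
    refine natDegree_map_le.trans ((natDegree_sub_le _ _).trans (max_le ?_ (hPd'.trans (by omega))))
    refine natDegree_mul_le.trans ?_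
    rw [natDegree_X]
    omega
  have hΛ : 0 < l ^ K := by
    have := (Fact.out : l.Prime).pos
    positivity
  obtain ⟨α, hα⟩ := fact _ hψ' t (l ^ K) M (N + 1) hψd hM hM0 hΛ h2
  have h3 : (PowerSeries.X : PowerSeries L) ^ M ∣ V - PowerSeries.C α * W := by
    have h4 : V - PowerSeries.C α * W = (t - PowerSeries.C α) * W := by
      rw [sub_mul, htW]
    rw [h4]
    exact dvd_mul_of_dvd_left hα _
  have h4 : eval₂ a y v = α * eval₂ a y w := by
    have h5 : (PowerSeries.X : PowerSeries L) ∣ V - PowerSeries.C α * W :=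
      (dvd_pow_self _ hM0.ne').trans h3
    rw [PowerSeries.X_dvd_iff, map_sub, map_mul, PowerSeries.constantCoeff_C, hV, hW, hcc, hcc,
      sub_eq_zero] at h5
    exact h5
  have h5 : eval₂ (PowerSeries.map a) (PowerSeries.C y)
      (v.map (τ : E →+* PowerSeries E) * w.map PowerSeries.C -
        v.map PowerSeries.C * w.map (τ : E →+* PowerSeries E)) =
      PowerSeries.C (eval₂ a y w) * (V - PowerSeries.C α * W) := by
    rw [eval₂_sub, eval₂_mul, eval₂_mul, eval₂_map, eval₂_map, eval₂_map, eval₂_map, hι]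
    have h6 : ∀ g : E[X], eval₂ ι (PowerSeries.C y) g = PowerSeries.C (eval₂ a y g) := fun g => by
      rw [hom_eval₂]
    rw [h6, h6, h4, map_mul]
    change V * _ - _ * W = _
    ring
  rw [h5]
  exact dvd_mul_of_dvd_right h3 _

theorem v10 (hprc : S_prcP.{u}) (hit : S_itP.{u}) (hlev : S_levP.{u}) : S_ctP.{u} := by
  intro l D₀ e₀ hl hD he
  obtain ⟨S, hS1, hS2⟩ := primes_exist (3 * e₀ + 2) l (D₀ + 4)
  refine ⟨D₀ ^ (S.sup id) + 1, ?_⟩
  intro k E _ _ _ _ _ τ D hτ K P Q P' Q' v w hPQ hPQ' hvw H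
  set c := D₀ ^ (S.sup id) + 1 with hc
  by_cases hK : K ≤ c
  · rw [Nat.sub_eq_zero_of_le hK]
    refine ⟨1, v, w, one_ne_zero, ?_, ?_⟩
    · rw [iterateFrobenius_zero, Polynomial.map_id, C_1, one_mul]
    · rw [iterateFrobenius_zero, Polynomial.map_id, C_1, one_mul]
  · push Not at hK
    classical
    let L := AlgebraicClosure E
    let a : E →+* L := algebraMap E L
    let Fr := iterateFrobenius E l K
    have : CharP L l := charP_of_injective_algebraMap (algebraMap E L).injective l
    obtain ⟨bad, hbad, hcyc⟩ := hprc l D₀ L _ _ (Q246.SP.rm_map hPQ a) hD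
    obtain ⟨ℓ, hℓS, hℓb⟩ : ∃ ℓ ∈ S, ℓ ∉ bad := by
      by_contra h
      push Not at h
      have := Finset.card_le_card (show S ⊆ bad from h)
      omega
    obtain ⟨hℓ1, hℓ2, hℓ3⟩ := hS2 ℓ hℓS
    obtain ⟨y, hy1, hy2, hy3⟩ := hcyc ℓ hℓ1 (by omega) hℓb
    have hℓ0 : 1 ≤ ℓ := hℓ1.one_lt.le
    have hyp : ∀ j, y (j + ℓ) = y j := by
      intro j
      induction j with
      | zero => rw [zero_add, hy2]
      | succ j ih =>
        have h1 : j + 1 + ℓ = (j + ℓ) + 1 := by ring
        rw [h1, (hy1 (j + ℓ)).2, (hy1 j).2, ih]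
    have hinj := cycle_inj (fun z => ((P.map Fr).map a).eval z / ((Q.map Fr).map a).eval z) y
      (fun i => (hy1 i).2) ℓ hℓ1 hy2 hy3
    -- the iterates
    have hwne : w ≠ 0 := by
      intro h0
      have h1 := hvw.co
      rw [h0, isCoprime_zero_right] at h1
      have h2 := natDegree_eq_zero_of_isUnit h1
      have h3 := hvw.deg
      rw [h0, h2, natDegree_zero, max_self] at h3
      omega
    have hn' := (hit E D₀ (P'.map Fr) (Q'.map Fr) (by omega) hPQ' ℓ).1
    have hI : hcm e₀ v (itr D₀ (P.map Fr) (Q.map Fr) ℓ).1 (itr D₀ (P.map Fr) (Q.map Fr) ℓ).2 *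
        hcm (D₀ ^ ℓ) (itr D₀ (P'.map Fr) (Q'.map Fr) ℓ).2 v w =
      hcm e₀ w (itr D₀ (P.map Fr) (Q.map Fr) ℓ).1 (itr D₀ (P.map Fr) (Q.map Fr) ℓ).2 *
        hcm (D₀ ^ ℓ) (itr D₀ (P'.map Fr) (Q'.map Fr) ℓ).1 v w := by
      apply Polynomial.map_injective a a.injective
      have h1 := semi (Q246.SP.rm_map hPQ a) (Q246.SP.rm_map hPQ' a) (Q246.SP.rm_map hvw a)
        (by omega) he (by
          rw [← hcm_map, ← hcm_map, ← hcm_map, ← hcm_map, ← Polynomial.map_mul,
            ← Polynomial.map_mul, H]) ℓ (by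
          rw [(itr_map a D₀ (P'.map Fr) (Q'.map Fr) ℓ).1, (itr_map a D₀ (P'.map Fr) (Q'.map Fr) ℓ).2]
          exact Q246.SP.rm_map hn' a)
      rw [(itr_map a D₀ (P'.map Fr) (Q'.map Fr) ℓ).1, (itr_map a D₀ (P'.map Fr) (Q'.map Fr) ℓ).2,
        (itr_map a D₀ (P.map Fr) (Q.map Fr) ℓ).1, (itr_map a D₀ (P.map Fr) (Q.map Fr) ℓ).2,
        ← hcm_map, ← hcm_map, ← hcm_map, ← hcm_map, ← Polynomial.map_mul,
            ← Polynomial.map_mul] at h1
      exact h1
    have hevl : ∀ j, eval₂ a (y j) (itr D₀ (P.map Fr) (Q.map Fr) ℓ).2 ≠ 0 ∧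
        eval₂ a (y j) (itr D₀ (P.map Fr) (Q.map Fr) ℓ).1 =
          y j * eval₂ a (y j) (itr D₀ (P.map Fr) (Q.map Fr) ℓ).2 := by
      intro j
      have h1 := Q52.SP.itr_ev a (D := D₀) (P := P.map Fr) (Q := Q.map Fr)
        (by rw [← hPQ.deg]; exact le_max_left _ _) (by rw [← hPQ.deg]; exact le_max_right _ _)
        (fun i => y (j + i)) (fun i => by
          have h2 := hy1 (j + i)
          rw [eval_map, eval_map] at h2
          exact h2) ℓ
      simp only [add_zero] at h1
      rw [hyp] at h1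
      refine ⟨h1.1, ?_⟩
      have h3 := h1.2
      rw [eq_div_iff h1.1] at h3
      exact h3.symm
    -- the exponent
    let M := l ^ (K - c)
    have hM0 : 0 < M := pow_pos hl.pos _
    have hM : (D₀ ^ ℓ + 1) * M ≤ l ^ K := by
      have h1 : D₀ ^ ℓ ≤ D₀ ^ (S.sup id) := Nat.pow_le_pow_right (by omega) (Finset.le_sup (f := id) hℓS)
      have h2 : c < l ^ c := Nat.lt_pow_self hl.one_lt
      have h3 : l ^ K = l ^ c * l ^ (K - c) := by
        rw [← pow_add]
        congr 1
        omega
      rw [h3]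
      exact Nat.mul_le_mul_right _ (by omega)
    -- the points
    let pts : Finset L := ((range ℓ).image y).filter fun z => eval₂ a z w ≠ 0
    have hpts : 2 * e₀ < pts.card := by
      have h1 : ((range ℓ).image y).card = ℓ := by
        rw [Finset.card_image_of_injOn, card_range]
        intro i hi j hj hij
        exact hinj i (mem_range.1 hi) j (mem_range.1 hj) hij
      have h2 : (((range ℓ).image y).filter fun z => ¬ eval₂ a z w ≠ 0).card ≤ e₀ := by
        have h3 : (((range ℓ).image y).filter fun z => ¬ eval₂ a z w ≠ 0) ⊆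
            (w.map a).roots.toFinset := by
          intro z hz
          have h4 := (mem_filter.1 hz).2
          push Not at h4
          rw [Multiset.mem_toFinset, mem_roots ((Polynomial.map_ne_zero_iff a.injective).2 hwne)]
          change (w.map a).eval z = 0
          rw [eval_map, h4]
        refine (Finset.card_le_card h3).trans ((Multiset.toFinset_card_le _).trans
          ((card_roots' _).trans ?_))
        rw [natDegree_map, ← hvw.deg]
        exact le_max_right _ _
      have h3 := Finset.card_filter_add_card_filter_not (s := (range ℓ).image y)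
        (fun z => eval₂ a z w ≠ 0)
      change pts.card + _ = _ at h3
      omega
    have hΘ := many (v.map (τ : E →+* PowerSeries E) * w.map PowerSeries.C -
        v.map PowerSeries.C * w.map (τ : E →+* PowerSeries E)) M (2 * e₀) (by
          have hvd : v.natDegree ≤ e₀ := by rw [← hvw.deg]; exact le_max_left _ _
          have hwd : w.natDegree ≤ e₀ := by rw [← hvw.deg]; exact le_max_right _ _
          have h1 : ∀ f g : E →+* PowerSeries E, (v.map f * w.map g).natDegree ≤ 2 * e₀ :=
            fun f g => natDegree_mul_le.trans (by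
              have h2 : (v.map f).natDegree ≤ v.natDegree := natDegree_map_le
              have h3 : (w.map g).natDegree ≤ w.natDegree := natDegree_map_le
              omega)
          exact (natDegree_sub_le _ _).trans (max_le (h1 _ _) (h1 _ _))) pts hpts (by
        intro z hz
        obtain ⟨hz1, hz2⟩ := mem_filter.1 hz
        obtain ⟨j, -, rfl⟩ := mem_image.1 hz1
        have h1 := (itr_map Fr D₀ P Q ℓ)
        have h2 := (itr_map Fr D₀ P' Q' ℓ)
        rw [h1.1, h1.2, h2.1, h2.2] at hI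
        rw [h2.1, h2.2] at hn'
        have h3 := hevl j
        rw [h1.1, h1.2] at h3
        refine point hτ K e₀ (D₀ ^ ℓ) M _ _ _ _ v w hn' hvw ?_ hM0 hM hI (y j) h3.1 h3.2 hz2
        calc 2 ≤ D₀ := hD
          _ = D₀ ^ 1 := (pow_one _).symm
          _ ≤ D₀ ^ ℓ := Nat.pow_le_pow_right (by omega) hℓ0)
    exact norm_coeff hτ hlev (K - c) v w hvw.co hwne hΘ

end Pool.Agent.Q239.SP.V10
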