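import Pool.Agent.Q41.SP.Stm5
import Pool.Agent.Q210.SU.N9

set_option autoImplicit false

/-!
# Project SP, job X1: composition of relations
-/

namespace Pool.Agent.Q239.SP.X1

open Finset Polynomial
open Pool.Agent.Q41.SU Pool.Agent.Q41.SP
open Polynomial.Bivariate (swap)
open Pool.Agent.Q210.SU.N9 (res_ne_zero ψ Φ Φ_C Φ_X relPrime deg_gg ψ_apply)

universe u

/-! ## Degrees in both variables -/

section

variable {A : Type*} [CommRing A]

theorem swap_coeff (G : A[X][X]) (i j : ℕ) : ((swap G).coeff i).coeff j = (G.coeff j).coeff i := by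
  induction G using Polynomial.induction_on' with
  | add p q hp hq => rw [map_add, coeff_add, coeff_add, coeff_add, coeff_add, hp, hq]
  | monomial n p =>
    induction p using Polynomial.induction_on' with
    | add p q hp hq => rw [map_add, map_add, coeff_add, coeff_add, coeff_add, coeff_add, hp, hq]
    | monomial m r =>
      rw [Bivariate.swap_monomial_monomial, coeff_monomial, coeff_monomial]
      by_cases h1 : m = i <;> by_cases h2 : n = j
      · rw [if_pos h1, if_pos h2, coeff_monomial, coeff_monomial, if_pos h2, if_pos h1]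
      · rw [if_pos h1, if_neg h2, coeff_monomial, if_neg h2, coeff_zero]
      · rw [if_neg h1, if_pos h2, coeff_monomial, if_neg h1, coeff_zero]
      · rw [if_neg h1, if_neg h2, coeff_zero, coeff_zero]

theorem swap_deg_le {G : A[X][X]} {a : ℕ} :
    (swap G).natDegree ≤ a ↔ ∀ i, (G.coeff i).natDegree ≤ a := by
  constructor
  · intro h i
    rw [natDegree_le_iff_coeff_eq_zero]
    intro n hn
    rw [← swap_coeff, coeff_eq_zero_of_natDegree_lt (h.trans_lt hn), coeff_zero]
  · intro h
    rw [natDegree_le_iff_coeff_eq_zero]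
    intro n hn
    ext j
    rw [swap_coeff, coeff_zero, coeff_eq_zero_of_natDegree_lt ((h j).trans_lt hn)]

/-- the degrees are bounded -/
def Bd (β H : ℕ) (G : A[X][X]) : Prop := G.natDegree ≤ β ∧ (swap G).natDegree ≤ H

theorem Bd.zero (β H : ℕ) : Bd β H (0 : A[X][X]) := by
  refine ⟨by rw [natDegree_zero]; exact Nat.zero_le _, ?_⟩
  rw [map_zero, natDegree_zero]
  exact Nat.zero_le _

theorem Bd.det {N : ℕ} {β H : Fin N → ℕ} {M : Matrix (Fin N) (Fin N) A[X][X]}
    (hM : ∀ i j, Bd (β j) (H j) (M i j)) : Bd (∑ j, β j) (∑ j, H j) M.det := by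
  rw [Matrix.det_apply']
  constructor
  · refine natDegree_sum_le_of_forall_le _ _ fun σ _ => ?_
    refine natDegree_mul_le.trans ?_
    have h1 : (((Equiv.Perm.sign σ : ℤ) : A[X][X])).natDegree = 0 := natDegree_intCast _
    rw [h1, zero_add]
    refine (natDegree_prod_le _ _).trans ?_
    exact Finset.sum_le_sum fun i _ => (hM (σ i) i).1
  · rw [map_sum]
    refine natDegree_sum_le_of_forall_le _ _ fun σ _ => ?_
    rw [map_mul, map_intCast, map_prod]
    refine natDegree_mul_le.trans ?_
    have h1 : (((Equiv.Perm.sign σ : ℤ) : A[X][X])).natDegree = 0 := natDegree_intCast _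
    rw [h1, zero_add]
    refine (natDegree_prod_le _ _).trans ?_
    exact Finset.sum_le_sum fun i _ => (hM (σ i) i).2

theorem res_bd (f g : A[X][X][X]) (m n b₁ h₁ b₂ h₂ : ℕ) (hf : ∀ i, Bd b₁ h₁ (f.coeff i))
    (hg : ∀ i, Bd b₂ h₂ (g.coeff i)) :
    Bd (m * b₂ + n * b₁) (m * h₂ + n * h₁) (resultant f g m n) := by
  have h1 := Bd.det (M := sylvester f g m n)
    (β := Fin.addCases (fun _ => b₂) (fun _ => b₁)) (H := Fin.addCases (fun _ => h₂) (fun _ => h₁))
    (fun i j => by
      unfold sylvester
      rw [Matrix.of_apply]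
      refine Fin.addCases (fun j₁ => ?_) (fun j₁ => ?_) j
      · rw [Fin.addCases_left, Fin.addCases_left, Fin.addCases_left]
        split_ifs
        · exact hg _
        · exact Bd.zero _ _
      · rw [Fin.addCases_right, Fin.addCases_right, Fin.addCases_right]
        split_ifs
        · exact hf _
        · exact Bd.zero _ _)
  rw [Fin.sum_univ_add, Fin.sum_univ_add] at h1
  simp only [Fin.addCases_left, Fin.addCases_right, Finset.sum_const, Finset.card_univ,
    Fintype.card_fin, smul_eq_mul] at h1
  exact h1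

theorem evalEval_swap' (x y : A) (F : A[X][X]) : (swap F).evalEval y x = F.evalEval x y := by
  have h1 := Bivariate.aevalAeval_swap (A := A) y x F
  rw [coe_aevalAeval_eq_evalEval, coe_aevalAeval_eq_evalEval] at h1
  exact h1

/-- the evaluation at `X = x`, `Y = y`, outermost variable `w` -/
noncomputable def ev3 (x y w : A) : A[X][X][X] →+* A :=
  (evalEvalRingHom x y).comp (evalRingHom (C (C w)))

theorem ev3_C (x y w : A) (ρ : A[X][X]) : ev3 x y w (C ρ) = ρ.evalEval x y := by
  change ((C ρ).eval (C (C w))).evalEval x y = _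
  rw [eval_C]

/-- the polynomial in `w` (inner) and `Y` (outer) as a polynomial in `w` over those in `X`, `Y` -/
noncomputable def gt (G : A[X][X]) : A[X][X][X] := (swap G).map (mapRingHom C)

theorem ev3_gt (x y w : A) (G : A[X][X]) : ev3 x y w (gt G) = G.evalEval w y := by
  change (evalEvalRingHom x y) (((swap G).map (mapRingHom C)).eval (C (C w))) = _
  rw [eval_map, hom_eval₂]
  have h1 : (evalEvalRingHom x y).comp (mapRingHom (C : A →+* A[X])) = evalRingHom y := by
    ext a
    · simp
    · simp
  rw [h1, eval₂_evalRingHom, ← evalEval_swap' w y G]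
  congr 1
  change (C (C w)).evalEval x y = w
  rw [evalEval_C, eval_C]

theorem bd_gt {G : A[X][X]} {b : ℕ} (hG : G.natDegree ≤ b) (i : ℕ) : Bd b 0 ((gt G).coeff i) := by
  have h0 : ((swap G).coeff i).natDegree ≤ b := by
    rw [natDegree_le_iff_coeff_eq_zero]
    intro n hn
    rw [swap_coeff, coeff_eq_zero_of_natDegree_lt (hG.trans_lt hn), coeff_zero]
  constructor
  · unfold gt
    rw [coeff_map]
    change (((swap G).coeff i).map C).natDegree ≤ b
    exact natDegree_map_le.trans h0
  · rw [swap_deg_le]
    intro j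
    unfold gt
    rw [coeff_map]
    change ((((swap G).coeff i).map C).coeff j).natDegree ≤ 0
    rw [coeff_map, natDegree_C]

theorem deg_gt {G : A[X][X]} {H : ℕ} (hG : ∀ i, (G.coeff i).natDegree ≤ H) :
    (gt G).natDegree ≤ H := by
  unfold gt
  exact natDegree_map_le.trans (swap_deg_le.2 hG)

end

/-! ## The other polynomial -/

section

variable {E : Type*} [Field E]

/-- the base change -/
noncomputable def φf : E[X] →+* (PowerSeries E)[X][X] :=
  (C : (PowerSeries E)[X] →+* (PowerSeries E)[X][X]).comp (mapRingHom PowerSeries.C)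

theorem φf_apply (p : E[X]) : φf p = C (p.map PowerSeries.C) := rfl

theorem φf_C (a : E) : φf (C a) = C (C (PowerSeries.C a)) := by
  rw [φf_apply, map_C]

theorem φf_X : φf (X : E[X]) = C X := by
  rw [φf_apply, map_X]

/-- the polynomial in `X` (inner) and `w` (outer) as a polynomial in `w` over those in `X`, `Y` -/
noncomputable def ft (f : E[X][X]) : (PowerSeries E)[X][X][X] := f.map φf

theorem ev3_ft (x w : E) (y : PowerSeries E) (f : E[X][X]) :
    ev3 (PowerSeries.C x) y (PowerSeries.C w) (ft f) = PowerSeries.C (f.evalEval x w) := by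
  change (evalEvalRingHom (PowerSeries.C x) y) ((f.map φf).eval (C (C (PowerSeries.C w)))) = _
  rw [eval_map, hom_eval₂]
  have h1 : (evalEvalRingHom (PowerSeries.C x) y).comp (φf (E := E)) =
      (PowerSeries.C).comp (evalRingHom x) := by
    ext a : 2
    · simp [φf_C]
    · simp [φf_X]
  have h2 : (evalEvalRingHom (PowerSeries.C x) y) (C (C (PowerSeries.C w))) = PowerSeries.C w := by
    change (C (C (PowerSeries.C w))).evalEval (PowerSeries.C x) y = _
    rw [evalEval_C, eval_C]
  rw [h1, h2, ← hom_eval₂, eval₂_evalRingHom]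

theorem bd_ft {f : E[X][X]} {H : ℕ} (hf : ∀ i, (f.coeff i).natDegree ≤ H) (i : ℕ) :
    Bd 0 H ((ft f).coeff i) := by
  unfold ft
  rw [coeff_map, φf_apply]
  refine ⟨by rw [natDegree_C], ?_⟩
  rw [swap_deg_le]
  intro j
  rw [coeff_C]
  split_ifs
  · exact natDegree_map_le.trans (hf i)
  · rw [natDegree_zero]
    exact Nat.zero_le _

/-- the reduction as a ring homomorphism -/
noncomputable def redH : (PowerSeries E)[X][X] →+* E[X][X] :=
  mapRingHom (mapRingHom PowerSeries.constantCoeff)

theorem ft_red (f : E[X][X]) : (ft f).map redH = f.map C := by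
  unfold ft
  rw [Polynomial.map_map]
  congr 1
  ext a : 2
  · simp [redH, φf_C]
  · simp [redH, φf_X]

theorem gt_red (G : (PowerSeries E)[X][X]) : (gt G).map redH = gt (red G) := by
  ext i j n
  unfold gt
  rw [coeff_map, coeff_map, coeff_map]
  change ((redH ((((swap G).coeff i).map C))).coeff j).coeff n =
    ((((swap (red G)).coeff i).map C).coeff j).coeff n
  unfold redH red
  rw [coe_mapRingHom, coeff_map, coeff_map, coeff_map, coe_mapRingHom, map_C, swap_coeff,
    swap_coeff, coeff_map, coe_mapRingHom, coeff_map]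

theorem gt_gg (P : E[X][X]) (b : ℕ) (hP : P.natDegree ≤ b) :
    gt P = Pool.Agent.Q210.SU.N9.gg b (fun r => C (P.coeff r)) := by
  unfold Pool.Agent.Q210.SU.N9.gg
  conv_lhs => rw [P.as_sum_range' (b + 1) (Nat.lt_succ_of_le hP)]
  unfold gt
  rw [map_sum, Polynomial.map_sum]
  refine Finset.sum_congr rfl fun r _ => ?_
  rw [← C_mul_X_pow_eq_monomial, map_mul, map_pow, Bivariate.swap_Y, Bivariate.swap_C,
    Polynomial.map_mul, Polynomial.map_pow, map_C, ψ_apply, Bivariate.swap_C, Polynomial.map_map,
    Polynomial.map_map]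
  congr 1
  · congr 1
    ext a : 1
    simp
  · rw [coe_mapRingHom, map_X, C_pow]

end

/-! ## The primitive part -/

theorem prim {E : Type*} [Field E] (F : E[X][X]) (hF : F ≠ 0) :
    ∃ (g : E[X]) (F₁ : E[X][X]), g ≠ 0 ∧ F₁ ≠ 0 ∧ F = C g * F₁ ∧ ∀ δ : E[X], C δ ∣ F₁ → IsUnit δ := by
  let _ := UniqueFactorizationMonoid.strongNormalizationMonoid (α := E[X])
  let _ := UniqueFactorizationMonoid.toNormalizedGCDMonoid E[X]
  refine ⟨F.content, F.primPart, ?_, ?_, F.eq_C_content_mul_primPart, ?_⟩
  · rwa [Ne, content_eq_zero_iff]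
  · exact F.isPrimitive_primPart.ne_zero
  · exact fun δ h => F.isPrimitive_primPart δ h

theorem x1 : S_compP.{u} := by
  intro l r₁ r₂ b₁ b₂ H₁ H₂ k E _ _ _ _ _ τ D hτ h₁ h₂ hcom f₁ F₂ hf₁ hf₁0 hF₂ hF₂0
  classical
  -- the twist
  let φ : E →+* E := (iterateFrobenius E l r₁).comp ((h₁ : E →ₐ[k] E) : E →+* E)
  have hφ : ∀ e, φ e = h₁ e ^ l ^ r₁ := fun e => by
    change iterateFrobenius E l r₁ (h₁ e) = _
    rw [iterateFrobenius_def]
  let θ : PowerSeries E →+* PowerSeries E := PowerSeries.map φ
  obtain ⟨g, F₁, hg, hF₁, hfac, hprim⟩ := prim (swap f₁)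
    ((map_ne_zero_iff _ (swap : E[X][X] ≃ₐ[E] E[X][X]).injective).2 hf₁0)
  -- degrees
  have hcoef : ∀ i, (swap f₁).coeff i = g * F₁.coeff i := fun i => by rw [hfac, coeff_C_mul]
  have hsd : ∀ i, ((swap f₁).coeff i).natDegree ≤ b₁ := by
    rw [← swap_deg_le, Bivariate.swap_swap_apply]
    exact hf₁.1
  have hgd : g.natDegree ≤ b₁ := by
    obtain ⟨i, hi⟩ : ∃ i, F₁.coeff i ≠ 0 := by
      by_contra h
      push Not at h
      exact hF₁ (Polynomial.ext fun i => by rw [h i, coeff_zero])
    have h2 := hsd i
    rw [hcoef, natDegree_mul hg hi] at h2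
    omega
  have hF₁d : ∀ i, (F₁.coeff i).natDegree ≤ b₁ := by
    intro i
    by_cases hi : F₁.coeff i = 0
    · rw [hi, natDegree_zero]
      exact Nat.zero_le _
    · have h2 := hsd i
      rw [hcoef, natDegree_mul hg hi] at h2
      omega
  have hF₁D : F₁.natDegree ≤ H₁ := by
    have h2 : (swap f₁).natDegree ≤ H₁ := swap_deg_le.2 hf₁.2
    rw [hfac, natDegree_mul (C_ne_zero.2 hg) hF₁, natDegree_C] at h2
    omega
  set f : E[X][X] := swap F₁ with hf
  have hfd : f.natDegree ≤ b₁ := swap_deg_le.2 hF₁d
  have hfD : ∀ i, (f.coeff i).natDegree ≤ H₁ := by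
    rw [← swap_deg_le, hf, Bivariate.swap_swap_apply]
    exact hF₁D
  have hf0 : f ≠ 0 := (map_ne_zero_iff _ (swap : E[X][X] ≃ₐ[E] E[X][X]).injective).2 hF₁
  -- the twisted relation
  set G : (PowerSeries E)[X][X] := F₂.map (mapRingHom θ) with hG
  have hGd : G.natDegree ≤ b₂ := natDegree_map_le.trans hF₂.1
  have hGD : ∀ i, (G.coeff i).natDegree ≤ H₂ := fun i => by
    rw [hG, coeff_map]
    exact natDegree_map_le.trans (hF₂.2 i)
  have hGr : red G = (red F₂).map (mapRingHom φ) := by
    unfold red
    rw [hG, Polynomial.map_map, Polynomial.map_map]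
    congr 1
    ext a : 2
    · simp only [RingHom.comp_apply, coe_mapRingHom, map_C]
      congr 1
    · simp
  have hGr0 : red G ≠ 0 := by
    rw [hGr]
    refine (Polynomial.map_ne_zero_iff ?_).2 hF₂0
    exact map_injective _ φ.injective
  -- the exceptional set
  have hinj : Function.Injective φ := φ.injective
  let Exc : Finset E := (g.roots.toFinset.preimage φ hinj.injOn) ∪
    (if f.natDegree = 0 then (f.coeff 0).roots.toFinset else ∅)
  have hExc : Exc.card ≤ b₁ + H₁ := by
    refine (Finset.card_union_le _ _).trans (Nat.add_le_add ?_ ?_)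
    · have h3 : ((g.roots.toFinset.preimage φ hinj.injOn).image φ).card =
          (g.roots.toFinset.preimage φ hinj.injOn).card := Finset.card_image_of_injective _ hinj
      rw [← h3]
      refine (Finset.card_le_card ?_).trans ((Multiset.toFinset_card_le _).trans
        ((card_roots' g).trans hgd))
      intro z hz
      obtain ⟨w, hw, rfl⟩ := Finset.mem_image.1 hz
      exact Finset.mem_preimage.1 hw
    · split_ifs
      · exact (Multiset.toFinset_card_le _).trans ((card_roots' _).trans (hfD 0))
      · rw [Finset.card_empty]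
        exact Nat.zero_le _
  have hred : ∀ x ∉ Exc, f₁.evalEval x (h₁ x ^ l ^ r₁) = 0 → f.evalEval x (φ x) = 0 := by
    intro x hx h3
    rw [← hφ, ← evalEval_swap', hfac, evalEval_mul, evalEval_C] at h3
    have h4 : g.eval (φ x) ≠ 0 := by
      intro h5
      apply hx
      refine Finset.mem_union_left _ ?_
      rw [Finset.mem_preimage, Multiset.mem_toFinset, mem_roots hg]
      exact h5
    have h5 := (mul_eq_zero.1 h3).resolve_left h4
    rw [hf, evalEval_swap']
    exact h5
  by_cases hm : f.natDegree = 0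
  · refine ⟨1, Exc, ⟨by rw [natDegree_one]; exact Nat.zero_le _, fun i => ?_⟩, ?_, hExc, ?_⟩
    · rw [← C_1, coeff_C]
      split_ifs
      · rw [natDegree_one]
        exact Nat.zero_le _
      · rw [natDegree_zero]
        exact Nat.zero_le _
    · unfold red
      rw [Polynomial.map_one]
      exact one_ne_zero
    · intro x hx M h3 _
      exfalso
      have h4 := hred x hx h3
      obtain ⟨p, hp⟩ := natDegree_eq_zero.1 hm
      rw [← hp, evalEval_C] at h4
      apply hx
      refine Finset.mem_union_right _ ?_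
      rw [if_pos hm, Multiset.mem_toFinset, ← hp, coeff_C_zero, mem_roots]
      · exact h4
      · rintro rfl
        exact hf0 (by rw [← hp, C_0])
  · -- the resultant
    refine ⟨resultant (ft f) (gt G) f.natDegree H₂, Exc, ?_, ?_, hExc, ?_⟩
    · have h3 := res_bd (ft f) (gt G) f.natDegree H₂ 0 H₁ b₂ 0 (bd_ft hfD) (bd_gt hGd)
      rw [mul_zero, add_zero, mul_zero, zero_add] at h3
      refine ⟨h3.1.trans (Nat.mul_le_mul_right _ hfd), ?_⟩
      rw [← swap_deg_le]
      refine h3.2.trans ?_
      rw [mul_comm]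
    · have h3 : red (E := E) (resultant (ft f) (gt G) f.natDegree H₂) =
          resultant (f.map C) (gt (red G)) f.natDegree H₂ := by
        have e1 := resultant_map_map (f := ft f) (g := gt G) (m := f.natDegree) (n := H₂)
          (φ := redH (E := E))
        rw [ft_red, gt_red] at e1
        exact e1.symm
      rw [h3]
      have hrd : (red G).natDegree ≤ b₂ := natDegree_map_le.trans hGd
      have hrD : ∀ i, ((red G).coeff i).natDegree ≤ H₂ := fun i => by
        unfold red
        rw [coeff_map]
        exact natDegree_map_le.trans (hGD i)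
      have h4 : IsRelPrime (f.map (C : E[X] →+* E[X][X])) (gt (red G)) := by
        have h5 := relPrime (E := E) (F₁ := F₁) hF₁ (b := b₂) (c := fun r => C ((red G).coeff r)) ?_
        · rw [ψ_apply, ← gt_gg _ _ hrd] at h5
          exact h5
        · intro π hπ hπF
          obtain ⟨r, hr⟩ : ∃ r, (red G).coeff r ≠ 0 := by
            by_contra h
            push Not at h
            exact hGr0 (Polynomial.ext fun i => by rw [h i, coeff_zero])
          refine ⟨r, ?_, ?_⟩
          · by_contra h
            push Not at h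
            exact hr (coeff_eq_zero_of_natDegree_lt (hrd.trans_lt h))
          · intro h6
            have h7 : π.natDegree = 0 := by
              have := natDegree_le_of_dvd h6 (C_ne_zero.2 hr)
              rw [natDegree_C] at this
              omega
            obtain ⟨δ, rfl⟩ := natDegree_eq_zero.1 h7
            exact hπ.not_isUnit (isUnit_C.2 (hprim δ hπF))
      have h5 : (f.map (C : E[X] →+* E[X][X])).natDegree = f.natDegree :=
        natDegree_map_eq_of_injective C_injective f
      have h6 : f.map (C : E[X] →+* E[X][X]) ≠ 0 := (Polynomial.map_ne_zero_iff C_injective).2 hf0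
      have h7 := res_ne_zero h6 h4
      have h8 : (gt (red G)).natDegree ≤ H₂ := deg_gt hrD
      obtain ⟨kk, hk⟩ := Nat.exists_eq_add_of_le h8
      have h9 := resultant_add_right_deg (f.map (C : E[X] →+* E[X][X])) (gt (red G))
        f.natDegree (gt (red G)).natDegree kk le_rfl
      rw [← hk] at h9
      rw [h9]
      refine mul_ne_zero (pow_ne_zero _ ?_) ?_
      · rw [coeff_map, Ne, C_eq_zero]
        exact leadingCoeff_ne_zero.2 hf0
      · rw [h5] at h7
        exact h7
    · intro x hx M h3 h4
      have h5 := hred x hx h3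
      obtain ⟨p, q, -, -, hpq⟩ := exists_mul_add_mul_eq_C_resultant (m := f.natDegree) (n := H₂)
        (ft f) (gt G) natDegree_map_le (deg_gt hGD) (Or.inl hm)
      have h6 := congrArg (ev3 (PowerSeries.C x) (tw l (r₁ + r₂) τ (h₁ (h₂ x)))
        (PowerSeries.C (φ x))) hpq
      rw [ev3_C, map_add, map_mul, map_mul, ev3_ft, h5, map_zero, zero_mul, zero_add, ev3_gt] at h6
      unfold Va
      rw [← h6]
      refine dvd_mul_of_dvd_left ?_ _
      have h7 : tw l (r₁ + r₂) τ (h₁ (h₂ x)) = θ (tw l r₂ τ (h₂ x)) := by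
        ext n
        change PowerSeries.coeff n (PowerSeries.map (iterateFrobenius E l (r₁ + r₂)) (τ (h₁ (h₂ x)))) =
          PowerSeries.coeff n (PowerSeries.map φ (PowerSeries.map (iterateFrobenius E l r₂)
            (τ (h₂ x))))
        rw [hcom, PowerSeries.coeff_map, PowerSeries.coeff_map, PowerSeries.coeff_map,
          PowerSeries.coeff_map, hφ, iterateFrobenius_def, iterateFrobenius_def]
        change (h₁ (PowerSeries.coeff n (τ (h₂ x)))) ^ l ^ (r₁ + r₂) =
          h₁ (PowerSeries.coeff n (τ (h₂ x)) ^ l ^ r₂) ^ l ^ r₁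
        rw [map_pow, ← pow_mul, ← pow_add, add_comm]
      have h8 : G.evalEval (PowerSeries.C (φ x)) (tw l (r₁ + r₂) τ (h₁ (h₂ x))) =
          θ (F₂.evalEval (PowerSeries.C x) (tw l r₂ τ (h₂ x))) := by
        have h9 : θ (PowerSeries.C x) = PowerSeries.C (φ x) := PowerSeries.map_C _ _
        rw [h7, ← h9, hG, map_mapRingHom_evalEval]
      rw [h8]
      obtain ⟨c, hc⟩ := h4
      rw [hc, map_mul, map_pow]
      have h9 : θ PowerSeries.X = PowerSeries.X := PowerSeries.map_X _
      rw [h9]
      exact dvd_mul_right _ _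

end Pool.Agent.Q239.SP.X1
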