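import Pool.Agent.Q41.SP.Stm5
import Pool.Agent.Q52.SP.Itr
import Pool.Agent.Q246.SP.Hc

set_option autoImplicit false

/-!
# Project SP, job V10, part 1: iterates of semiconjugate maps
-/

namespace Pool.Agent.Q239.SP.V10

open Finset Polynomial
open Pool.Agent.Q41.SU Pool.Agent.Q41.SP

/-! ## Base change of the homogenisation and of the iterates -/

theorem hcm_map {E L : Type*} [Field E] [Field L] (f : E →+* L) (d : ℕ) (A u v : E[X]) :
    (hcm d A u v).map f = hcm d (A.map f) (u.map f) (v.map f) := by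
  unfold hcm
  rw [Polynomial.map_sum]
  refine Finset.sum_congr rfl fun i _ => ?_
  rw [Polynomial.map_mul, Polynomial.map_mul, Polynomial.map_pow, Polynomial.map_pow, map_C,
    coeff_map]

theorem itr_map {E L : Type*} [Field E] [Field L] (f : E →+* L) (d : ℕ) (p q : E[X]) (n : ℕ) :
    (itr d (p.map f) (q.map f) n).1 = ((itr d p q n).1).map f ∧
      (itr d (p.map f) (q.map f) n).2 = ((itr d p q n).2).map f := by
  induction n with
  | zero =>
    rw [itr, itr]
    exact ⟨(map_X f).symm, (Polynomial.map_one f).symm⟩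
  | succ n ih =>
    rw [itr, itr]
    dsimp only
    rw [ih.1, ih.2, hcm_map, hcm_map]
    exact ⟨rfl, rfl⟩

/-! ## Nonconstant elements -/

section

variable {L K : Type*} [Field L] [IsAlgClosed L] [Field K] (φ : L →+* K)

theorem nc_eval {z : K} (hz : ∀ a, z ≠ φ a) {g : L[X]} (hg : g ≠ 0) : eval₂ φ z g ≠ 0 := by
  have h1 := (IsAlgClosed.splits g).eq_prod_roots
  rw [h1, eval₂_mul, eval₂_C]
  refine mul_ne_zero ?_ ?_
  · rw [Ne, map_eq_zero]
    exact leadingCoeff_ne_zero.2 hg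
  · rw [← coe_eval₂RingHom, map_multiset_prod, Multiset.map_map]
    refine Multiset.prod_ne_zero ?_
    intro h2
    obtain ⟨a, -, ha⟩ := Multiset.mem_map.1 h2
    rw [Function.comp_apply, coe_eval₂RingHom, eval₂_sub, eval₂_X, eval₂_C, sub_eq_zero] at ha
    exact hz a ha

theorem nc_step {z : K} (hz : ∀ a, z ≠ φ a) {d : ℕ} (hd : 1 ≤ d) {P Q : L[X]} (h : RM d P Q) :
    Q ≠ 0 ∧ ∀ a, eval₂ φ z P / eval₂ φ z Q ≠ φ a := by
  have hQ : Q ≠ 0 := by
    intro h0
    have h1 := h.co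
    rw [h0, isCoprime_zero_right] at h1
    have h2 := natDegree_eq_zero_of_isUnit h1
    have h3 := h.deg
    rw [h0, h2, natDegree_zero, max_self] at h3
    omega
  refine ⟨hQ, fun a ha => ?_⟩
  have h1 : eval₂ φ z (P - C a * Q) = 0 := by
    rw [eval₂_sub, eval₂_mul, eval₂_C, ← ha, div_mul_cancel₀ _ (nc_eval φ hz hQ), sub_self]
  have h2 : P - C a * Q = 0 := by
    by_contra h3
    exact nc_eval φ hz h3 h1
  have h3 : P = C a * Q := sub_eq_zero.1 h2
  have h4 : IsUnit Q := h.co.isUnit_of_dvd' ⟨C a, by rw [h3, mul_comm]⟩ dvd_rfl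
  have h5 := natDegree_eq_zero_of_isUnit h4
  have h6 : P.natDegree ≤ 0 := by
    rw [h3, ← h5]
    exact natDegree_C_mul_le _ _
  have h7 := h.deg
  omega

end

/-- semiconjugacy of the iterates -/
theorem semi {L : Type*} [Field L] [IsAlgClosed L] {D e : ℕ} {P Q P' Q' v w : L[X]}
    (hPQ : RM D P Q) (hPQ' : RM D P' Q') (hvw : RM e v w) (hD : 1 ≤ D) (he : 1 ≤ e)
    (H : hcm e v P Q * hcm D Q' v w = hcm e w P Q * hcm D P' v w) (n : ℕ)
    (hn : RM (D ^ n) (itr D P' Q' n).1 (itr D P' Q' n).2) :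
    hcm e v (itr D P Q n).1 (itr D P Q n).2 * hcm (D ^ n) (itr D P' Q' n).2 v w =
      hcm e w (itr D P Q n).1 (itr D P Q n).2 * hcm (D ^ n) (itr D P' Q' n).1 v w := by
  have hvd : v.natDegree ≤ e := by rw [← hvw.deg]; exact le_max_left _ _
  have hwd : w.natDegree ≤ e := by rw [← hvw.deg]; exact le_max_right _ _
  have hPd : P.natDegree ≤ D := by rw [← hPQ.deg]; exact le_max_left _ _
  have hQd : Q.natDegree ≤ D := by rw [← hPQ.deg]; exact le_max_right _ _
  have hPd' : P'.natDegree ≤ D := by rw [← hPQ'.deg]; exact le_max_left _ _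
  have hQd' : Q'.natDegree ≤ D := by rw [← hPQ'.deg]; exact le_max_right _ _
  have hnd : (itr D P' Q' n).1.natDegree ≤ D ^ n := by rw [← hn.deg]; exact le_max_left _ _
  have hnd' : (itr D P' Q' n).2.natDegree ≤ D ^ n := by rw [← hn.deg]; exact le_max_right _ _
  let φ : L →+* RatFunc L := algebraMap L (RatFunc L)
  have hX : ∀ a, (RatFunc.X : RatFunc L) ≠ φ a := by
    intro a h
    have h1 : (algebraMap L[X] (RatFunc L)) X = (algebraMap L[X] (RatFunc L)) (C a) := by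
      rw [RatFunc.algebraMap_X, RatFunc.algebraMap_C, h]
      rfl
    have h2 := IsFractionRing.injective L[X] (RatFunc L) h1
    exact X_ne_C a h2
  let z : ℕ → RatFunc L := fun m => (fun x => eval₂ φ x P / eval₂ φ x Q)^[m] RatFunc.X
  have hz1 : ∀ m, z (m + 1) = eval₂ φ (z m) P / eval₂ φ (z m) Q := fun m =>
    Function.iterate_succ_apply' _ _ _
  have hznc : ∀ m, ∀ a, z m ≠ φ a := by
    intro m
    induction m with
    | zero => exact hX
    | succ m ih =>
      rw [hz1]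
      exact (nc_step φ ih hD hPQ).2
  have hQ0 := (nc_step φ hX hD hPQ).1
  have hw0 := (nc_step φ hX he hvw).1
  have hzQ : ∀ m, eval₂ φ (z m) Q ≠ 0 := fun m => nc_eval φ (hznc m) hQ0
  have hzw : ∀ m, eval₂ φ (z m) w ≠ 0 := fun m => nc_eval φ (hznc m) hw0
  let r : ℕ → RatFunc L := fun m => eval₂ φ (z m) v / eval₂ φ (z m) w
  have hr : ∀ m, eval₂ φ (r m) Q' ≠ 0 ∧
      r (m + 1) = eval₂ φ (r m) P' / eval₂ φ (r m) Q' := by
    intro m
    have h1 := congrArg (eval₂ φ (z m)) H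
    rw [eval₂_mul, eval₂_mul, Q52.SP.ev_hcm φ (z m) hvd (hzQ m), Q52.SP.ev_hcm φ (z m) hwd (hzQ m),
      Q52.SP.ev_hcm φ (z m) hQd' (hzw m), Q52.SP.ev_hcm φ (z m) hPd' (hzw m), ← hz1] at h1
    change _ * (_ * eval₂ φ (r m) Q') = _ * (_ * eval₂ φ (r m) P') at h1
    have h2 : eval₂ φ (z (m + 1)) v * eval₂ φ (r m) Q' =
        eval₂ φ (z (m + 1)) w * eval₂ φ (r m) P' := by
      have h3 : eval₂ φ (z m) Q ^ e * eval₂ φ (z m) w ^ D ≠ 0 :=
        mul_ne_zero (pow_ne_zero _ (hzQ m)) (pow_ne_zero _ (hzw m))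
      apply mul_left_cancel₀ h3
      linear_combination h1
    have h3 : eval₂ φ (r m) Q' ≠ 0 := by
      intro h4
      rw [h4, mul_zero] at h2
      have h5 := (mul_eq_zero.1 h2.symm).resolve_left (hzw (m + 1))
      obtain ⟨a, b, hab⟩ := hPQ'.co
      have h6 := congrArg (eval₂ φ (r m)) hab
      rw [eval₂_add, eval₂_mul, eval₂_mul, h4, h5, mul_zero, mul_zero, add_zero, eval₂_one] at h6
      exact zero_ne_one h6
    refine ⟨h3, ?_⟩
    change eval₂ φ (z (m + 1)) v / eval₂ φ (z (m + 1)) w = _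
    rw [div_eq_div_iff (hzw (m + 1)) h3, h2, mul_comm]
  have hA := Q52.SP.itr_ev φ hPd hQd z (fun m => ⟨hzQ m, hz1 m⟩) n
  have hB := Q52.SP.itr_ev φ hPd' hQd' r hr n
  have h5 : eval₂ φ (z n) v * eval₂ φ (r 0) (itr D P' Q' n).2 =
      eval₂ φ (z n) w * eval₂ φ (r 0) (itr D P' Q' n).1 := by
    have h6 := hB.2
    change eval₂ φ (z n) v / eval₂ φ (z n) w = _ at h6
    rw [div_eq_div_iff (hzw n) hB.1] at h6
    rw [h6, mul_comm]
  by_contra hne
  have h7 := sub_ne_zero.2 hne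
  apply nc_eval φ (hznc 0) h7
  rw [eval₂_sub, eval₂_mul, eval₂_mul, Q52.SP.ev_hcm φ (z 0) hvd hA.1,
    Q52.SP.ev_hcm φ (z 0) hwd hA.1, Q52.SP.ev_hcm φ (z 0) hnd' (hzw 0),
    Q52.SP.ev_hcm φ (z 0) hnd (hzw 0), ← hA.2]
  change _ * (_ * eval₂ φ (r 0) (itr D P' Q' n).2) - _ * (_ * eval₂ φ (r 0) (itr D P' Q' n).1) = 0
  linear_combination (eval₂ φ (z 0) (itr D P Q n).2 ^ e * eval₂ φ (z 0) w ^ D ^ n) * h5

/-! ## The evaluation in a commutative ring -/

theorem ev_hcm_ring {E B : Type*} [Field E] [CommRing B] (f : E →+* B) (z s : B) {d : ℕ}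
    {A u v : E[X]} (hA : A.natDegree ≤ d) (hs : eval₂ f z u = s * eval₂ f z v) :
    eval₂ f z (hcm d A u v) = eval₂ f z v ^ d * eval₂ f s A := by
  rw [hcm, eval₂_finsetSum, eval₂_eq_sum_range' f (Nat.lt_succ_of_le hA), Finset.mul_sum]
  refine Finset.sum_congr rfl fun i hi => ?_
  have h1 : i ≤ d := Nat.lt_succ_iff.1 (Finset.mem_range.1 hi)
  have h2 : eval₂ f z v ^ d = eval₂ f z v ^ (d - i) * eval₂ f z v ^ i := by
    rw [← pow_add, Nat.sub_add_cancel h1]
  rw [eval₂_mul, eval₂_mul, eval₂_C, eval₂_pow, eval₂_pow, hs, h2]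
  ring

theorem ringB {E B : Type*} [Field E] [CommRing B] (σ : E →+* B) (ζ t : B) {e N : ℕ}
    {Pn Qn Pn' Qn' v w : E[X]} (h1 : eval₂ σ ζ Pn = ζ * eval₂ σ ζ Qn)
    (h2 : eval₂ σ ζ v = t * eval₂ σ ζ w) (hq : IsUnit (eval₂ σ ζ Qn)) (hw : IsUnit (eval₂ σ ζ w))
    (hvd : v.natDegree ≤ e) (hwd : w.natDegree ≤ e) (hPd : Pn'.natDegree ≤ N)
    (hQd : Qn'.natDegree ≤ N)
    (H : hcm e v Pn Qn * hcm N Qn' v w = hcm e w Pn Qn * hcm N Pn' v w) :
    t * eval₂ σ t Qn' = eval₂ σ t Pn' := by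
  have h3 := congrArg (eval₂ σ ζ) H
  rw [eval₂_mul, eval₂_mul, ev_hcm_ring σ ζ ζ hvd h1, ev_hcm_ring σ ζ ζ hwd h1,
    ev_hcm_ring σ ζ t hQd h2, ev_hcm_ring σ ζ t hPd h2, h2] at h3
  have h4 : IsUnit (eval₂ σ ζ Qn ^ e * eval₂ σ ζ w ^ (N + 1)) := (hq.pow _).mul (hw.pow _)
  apply h4.mul_left_cancel
  linear_combination h3

/-! ## Factors of a product divisible by a high power -/

theorem fact_multiset {L : Type*} [Field L] (M : ℕ) (s : Multiset (PowerSeries L))
    (hs : ∀ x ∈ s, ¬ (PowerSeries.X : PowerSeries L) ^ M ∣ x) :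
    s.prod ≠ 0 ∧ s.prod.order + Multiset.card s ≤ (Multiset.card s * M : ℕ) := by
  induction s using Multiset.induction_on with
  | empty => simp
  | cons a s ih =>
    obtain ⟨h1, h2⟩ := ih fun x hx => hs x (Multiset.mem_cons_of_mem hx)
    have h3 := hs a (Multiset.mem_cons_self a s)
    have ha : a ≠ 0 := by
      rintro rfl
      exact h3 (dvd_zero _)
    have h4 : a.order < M := by
      by_contra h5
      push Not at h5
      apply h3
      rw [PowerSeries.X_pow_dvd_iff]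
      intro m hm
      apply PowerSeries.coeff_of_lt_order
      exact lt_of_lt_of_le (by exact_mod_cast hm) h5
    rw [Multiset.prod_cons, Multiset.card_cons]
    refine ⟨mul_ne_zero ha h1, ?_⟩
    rw [PowerSeries.order_mul]
    obtain ⟨b, hb⟩ := ENat.ne_top_iff_exists.1 (ne_top_of_lt h4)
    have h5 : s.prod.order ≠ ⊤ := by
      rw [Ne, PowerSeries.order_eq_top]
      exact h1
    obtain ⟨c, hc⟩ := ENat.ne_top_iff_exists.1 h5
    rw [← hb] at h4 ⊢
    rw [← hc] at h2 ⊢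
    norm_cast at h2 h4 ⊢
    nlinarith

theorem fact {L : Type*} [Field L] [IsAlgClosed L] (ψ : L[X]) (hψ : ψ ≠ 0) (t : PowerSeries L)
    (Λ M N : ℕ) (hN : ψ.natDegree ≤ N) (hM : N * M ≤ Λ) (_hM0 : 0 < M) (hΛ : 0 < Λ)
    (h : (PowerSeries.X : PowerSeries L) ^ Λ ∣ eval₂ PowerSeries.C t ψ) :
    ∃ α, (PowerSeries.X : PowerSeries L) ^ M ∣ t - PowerSeries.C α := by
  by_contra hcon
  push Not at hcon
  have h1 := (IsAlgClosed.splits ψ).eq_prod_roots
  have hlc : ψ.leadingCoeff ≠ 0 := leadingCoeff_ne_zero.2 hψ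
  have h2 : eval₂ (PowerSeries.C (R := L)) t ψ = PowerSeries.C ψ.leadingCoeff *
      (ψ.roots.map fun a => t - PowerSeries.C a).prod := by
    conv_lhs => rw [h1]
    rw [eval₂_mul, eval₂_C]
    congr 1
    rw [← coe_eval₂RingHom, map_multiset_prod, Multiset.map_map]
    congr 1
    refine Multiset.map_congr rfl fun a _ => ?_
    rw [Function.comp_apply, coe_eval₂RingHom, eval₂_sub, eval₂_X, eval₂_C]
  obtain ⟨h3, h4⟩ := fact_multiset M (ψ.roots.map fun a => t - PowerSeries.C a) (by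
    intro x hx
    obtain ⟨a, -, rfl⟩ := Multiset.mem_map.1 hx
    exact hcon a)
  rw [h2] at h
  have hu : IsUnit (PowerSeries.C ψ.leadingCoeff : PowerSeries L) :=
    (IsUnit.mk0 _ hlc).map PowerSeries.C
  have h5 : (PowerSeries.X : PowerSeries L) ^ Λ ∣
      (ψ.roots.map fun a => t - PowerSeries.C a).prod := hu.dvd_mul_left.1 h
  have h6 : (Λ : ℕ∞) ≤ (ψ.roots.map fun a => t - PowerSeries.C a).prod.order := by
    apply PowerSeries.le_order
    intro i hi
    rw [PowerSeries.X_pow_dvd_iff] at h5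
    exact h5 i (by exact_mod_cast hi)
  rw [Multiset.card_map] at h4
  have h7 : Multiset.card ψ.roots ≤ N := (card_roots' ψ).trans hN
  have h8 : (Λ : ℕ∞) + Multiset.card ψ.roots ≤ (Multiset.card ψ.roots * M : ℕ) :=
    (add_le_add_left h6 _).trans h4
  norm_cast at h8
  have h9 : Multiset.card ψ.roots * M ≤ N * M := Nat.mul_le_mul_right _ h7
  have h10 : Multiset.card ψ.roots = 0 := by omega
  rw [h10] at h8
  omega

/-! ## Many zeros -/

theorem many {E L : Type*} [Field E] [Field L] [Algebra E L] (Θ : (PowerSeries E)[X]) (m n : ℕ)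
    (hdeg : Θ.natDegree ≤ n) (S : Finset L) (hS : n < S.card)
    (h : ∀ y ∈ S, (PowerSeries.X : PowerSeries L) ^ m ∣
      eval₂ (PowerSeries.map (algebraMap E L)) (PowerSeries.C y) Θ) (i : ℕ) :
    (PowerSeries.X : PowerSeries E) ^ m ∣ Θ.coeff i := by
  rw [PowerSeries.X_pow_dvd_iff]
  intro k hk
  let θ : L[X] := ∑ j ∈ range (n + 1),
    C (algebraMap E L (PowerSeries.coeff k (Θ.coeff j))) * X ^ j
  have hθd : θ.natDegree ≤ n := by
    refine natDegree_sum_le_of_forall_le _ _ fun j hj => ?_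
    exact (natDegree_C_mul_X_pow_le _ _).trans (Nat.lt_succ_iff.1 (mem_range.1 hj))
  have hθ : θ = 0 := by
    refine eq_zero_of_natDegree_lt_card_of_eval_eq_zero' θ S (fun y hy => ?_) (hθd.trans_lt hS)
    have h1 := (PowerSeries.X_pow_dvd_iff.1 (h y hy)) k hk
    rw [eval₂_eq_sum_range' _ (Nat.lt_succ_of_le hdeg), map_sum] at h1
    rw [eval_finsetSum, ← h1]
    refine Finset.sum_congr rfl fun j _ => ?_
    rw [eval_mul, eval_C, eval_pow, eval_X, ← map_pow, PowerSeries.coeff_mul_C,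
      PowerSeries.coeff_map]
  by_cases hi : i ≤ n
  · have h2 : θ.coeff i = algebraMap E L (PowerSeries.coeff k (Θ.coeff i)) := by
      change (∑ j ∈ range (n + 1),
        C (algebraMap E L (PowerSeries.coeff k (Θ.coeff j))) * X ^ j).coeff i = _
      rw [finsetSum_coeff, Finset.sum_eq_single i]
      · rw [coeff_C_mul_X_pow, if_pos rfl]
      · intro j _ hj
        rw [coeff_C_mul_X_pow, if_neg hj.symm]
      · intro h3
        exact absurd (mem_range.2 (by omega)) h3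
    rw [hθ, coeff_zero] at h2
    exact (map_eq_zero (algebraMap E L)).1 h2.symm
  · rw [coeff_eq_zero_of_natDegree_lt (by omega), map_zero]

end Pool.Agent.Q239.SP.V10
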